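import Pool.Agent.Helper59_MWH.UGen

set_option autoImplicit false

namespace Pool.Agent.MWH.H59

open Pool.Agent.Helper14_MV Pool.Agent.Helper2_MV Pool.Agent.MVO Pool.Agent.MWL Pool.Agent.MWS

theorem vd_u11 : Vd 3 (vc [1, 0, 1, 0]) (vc [1, 2, 0, 2]) 0 := by
  refine ⟨by norm_num, by simp [vc], by simp [vc], ?_, by decide, by decide⟩
  intro j hj hj0
  interval_cases j <;> simp_all [vc]

theorem u11 (hPS0 : Ps0Stmt) (hPIN : PinStmt) : U11Stmt := by
  intro β θ hβ hle k a b i p hV hL hbi hb1 hm hz
  obtain ⟨m, him, hmp, hbm⟩ := hm
  obtain ⟨z, hpz, hzk, hbz⟩ := hz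
  obtain ⟨hip, hpk, hai, hap, haz⟩ := hL
  have hbp : b p = 0 := by
    rcases hV.un p hpk (by omega) with h | h
    · omega
    · exact h
  constructor
  · refine fwd hPS0 hβ hle (fun j => if j ≤ i then 0 else if j < p then 1 else if j = p then 2
      else 3) ?_ hV ?_ vd_u11 ?_ ?_ ?_ ?_ ?_
    · simp
    · constructor
      · intro x y hxy _
        split_ifs <;> omega
      · intro x _
        split_ifs <;> omega
    · intro j' hj'
      interval_cases j'
      · refine dm1 rfl i hai.le ?_
        intro j hj hg hne
        have hr : j ≤ i := by
          split_ifs at hg <;> omega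
        exact haz j hj hne (by omega)
      · refine dm0 ?_
        intro j hj hg
        have hr : i < j ∧ j < p := by
          split_ifs at hg <;> omega
        exact haz j hj (by omega) (by omega)
      · refine dm1 rfl p hap.le ?_
        intro j hj hg hne
        have hr : j = p := by
          split_ifs at hg <;> omega
        exact absurd hr hne
      · refine dm0 ?_
        intro j hj hg
        have hr : p < j := by
          split_ifs at hg <;> omega
        exact haz j hj (by omega) (by omega)
    · intro j' hj'
      interval_cases j'
      · refine dm1 rfl i hbi.le ?_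
        intro j hj hg hne
        have hr : j ≤ i := by
          split_ifs at hg <;> omega
        exact hb1 j (by omega)
      · exact dm2 (by simp [vc])
      · refine dm0 ?_
        intro j hj hg
        have hr : j = p := by
          split_ifs at hg <;> omega
        rw [hr]
        exact hbp
      · exact dm2 (by simp [vc])
    · intro j hj hg hne
      have hr : j ≤ i := by
        split_ifs at hg <;> omega
      exact ⟨haz j hj hne (by omega), hb1 j (by omega)⟩
    · simp [vc, hai]
    · simp [vc, hbi]
  · refine bwd hPIN hβ hle (fun j => if j = 0 then i else if j = 1 then m else if j = 2 then p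
      else z) ?_ hV ?_ ?_ vd_u11 ?_ ?_ ?_
    · simp
    · intro j hj
      interval_cases j <;> simp <;> omega
    · simp
      omega
    · intro j hj
      interval_cases j <;> simp [vc] <;> omega
    · simp [vc, hai]
    · simp [vc, hbi]

end Pool.Agent.MWH.H59
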